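import Pool.Agent.V11237.LP.PtShort
import Pool.Agent.H141R2.FS.Main1

/-!
# Four squares and almost prime quadruples: their number and the laws of their gaps in all short windows

For every large `n` not divisible by `4` the values `p = x + 2 y + 5 z`, `n = x² + y² + z² + w²`, for which `p - 2`, `p`,
`p + 4`, `p + 10` are almost prime, in every window of length `≥ n ^ θ` between `√(29 n)` and `√(30 n)`.
-/

set_option autoImplicit false

open Finset

namespace Pool.Agent.Results.MP_40574a_nt.LawsInShortWindows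

/-- `p` is the value of `x + 2 y + 5 z` at a representation of `n` as a sum of four squares of natural numbers -/
def Val (n p : ℕ) : Prop :=
  ∃ x y z w : ℕ, n = x ^ 2 + y ^ 2 + z ^ 2 + w ^ 2 ∧ p = x + 2 * y + 5 * z

/-- the four numbers `p - 2`, `p`, `p + 4`, `p + 10` -/
def num (p : ℕ) (i : Fin 4) : ℕ := ![p - 2, p, p + 4, p + 10] i

/-- `p > 2` is a value, `p ≡ c` modulo `30`, and none of the four numbers has a prime factor `≤ n ^ (1 / r)` -/
def Good (n r c p : ℕ) : Prop :=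
  2 < p ∧ p % 30 = c ∧ Val n p ∧ ∀ q : ℕ, q.Prime → (q : ℝ) ≤ (n : ℝ) ^ (1 / (r : ℝ)) → ∀ i, ¬ q ∣ num p i

/-- the product of `1 - 4 / q` over the primes `5 < q ≤ n ^ (1 / r)`, divided by `30` -/
noncomputable def V (n r : ℕ) : ℝ :=
  (∏ q ∈ (Ioc 5 ⌊(n : ℝ) ^ (1 / (r : ℝ))⌋₊).filter Nat.Prime, (1 - (4 : ℝ) / q)) / 30

open Classical in
/-- the number of the good `p` in `(A, A + L]` with fewer than `l` good numbers in `[p - T, p)` -/
noncomputable def GS (n r c l T A L : ℕ) : ℕ :=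
  ((Ioc A (A + L)).filter (fun p => Good n r c p ∧ ((Ico (p - T) p).filter (fun s => Good n r c s)).card < l)).card

/-- the pattern -/
def h : Fin 4 → ℕ := ![0, 2, 6, 12]

theorem pat (c : ℕ) (hc : c = 13 ∨ c = 19) : Pool.Agent.Y879.GL.Pat 5 30 (c - 2) h where
  hM := by norm_num
  hc := by rcases hc with rfl | rfl <;> norm_num
  hk := by norm_num
  hkP := by norm_num
  hpr := Pool.Agent.V11237.LP.Pt.pr30'
  cop := by rcases hc with rfl | rfl <;> decide
  inj := by decide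
  dif := by
    intro i j hij p hp hpP hd
    have hp7 : 7 ≤ p := by
      by_contra hcon
      have : p = 6 := by omega
      subst this
      exact absurd hp (by norm_num)
    have key : ∀ i j : Fin 4, i ≠ j → ((h i : ℤ) - h j) ∣ 60 ∧ ((h i : ℤ) - h j) ≠ 0 := by decide
    obtain ⟨k1, -⟩ := key i j hij
    have h60 : (p : ℤ) ∣ 60 := hd.trans k1
    have h60' : p ∣ 60 := by exact_mod_cast h60
    have e : (60 : ℕ) = 2 * 2 * 3 * 5 := by norm_num
    rw [e, hp.dvd_mul, hp.dvd_mul, hp.dvd_mul] at h60'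
    rcases h60' with ((h1 | h1) | h1) | h1
    all_goals
      have := Nat.le_of_dvd (by norm_num) h1
      omega

theorem num_h (m : ℕ) (i : Fin 4) : num (m + 2) i = m + h i := by
  unfold num h
  fin_cases i <;> simp

/-- in the range every sifted number is represented -/
theorem good_iff {n r c m : ℕ} (h4 : ¬ 4 ∣ n) (hc : c = 13 ∨ c = 19) (hm : 0 < m) (h1 : 29 * n ≤ (m + 2) ^ 2)
    (h2 : (m + 2) ^ 2 ≤ 30 * n) : Good n r c (m + 2) ↔ Pool.Agent.V11237.LP.Pt.Good 30 (c - 2) h n r m := by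
  unfold Good Pool.Agent.V11237.LP.Pt.Good
  simp only [num_h]
  constructor
  · rintro ⟨-, a1, -, a2⟩
    exact ⟨by omega, a2⟩
  · rintro ⟨a1, a2⟩
    have hcl : (m + 2) % 30 = c := by omega
    refine ⟨by omega, hcl, ?_, a2⟩
    have hco : Nat.Coprime (m + 2) 30 := by
      have e : Nat.gcd 30 (m + 2) = Nat.gcd ((m + 2) % 30) 30 := Nat.gcd_rec 30 (m + 2)
      rw [Nat.coprime_iff_gcd_eq_one, Nat.gcd_comm, e, hcl]
      rcases hc with rfl | rfl <;> rfl
    obtain ⟨x, y, z, w, h3, h5⟩ := Pool.Agent.H141R2.FS.rep h4 hco h1 h2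
    exact ⟨x, y, z, w, h3, h5.symm⟩

/-- shifting a window by `2` -/
theorem shift_Ioc (P : ℕ → Prop) [DecidablePred P] {A L : ℕ} (hA : 2 ≤ A) :
    ((Ioc A (A + L)).filter P).card = ((Ioc (A - 2) (A - 2 + L)).filter (fun m => P (m + 2))).card := by
  symm
  apply card_bij (fun m _ => m + 2)
  · intro m hm
    rw [mem_filter, mem_Ioc] at hm ⊢
    exact ⟨by omega, hm.2⟩
  · intro a _ b _ hab
    simpa using hab
  · intro p hp
    rw [mem_filter, mem_Ioc] at hp
    refine ⟨p - 2, ?_, by omega⟩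
    rw [mem_filter, mem_Ioc]
    have e : p - 2 + 2 = p := by omega
    rw [e]
    exact ⟨by omega, hp.2⟩

theorem shift_Ico (P : ℕ → Prop) [DecidablePred P] {m T : ℕ} (hT : T ≤ m) :
    ((Ico (m + 2 - T) (m + 2)).filter P).card = ((Ico (m - T) m).filter (fun s => P (s + 2))).card := by
  symm
  apply card_bij (fun s _ => s + 2)
  · intro s hs
    rw [mem_filter, mem_Ico] at hs ⊢
    exact ⟨by omega, hs.2⟩
  · intro a _ b _ hab
    simpa using hab
  · intro p hp
    rw [mem_filter, mem_Ico] at hp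
    refine ⟨p - 2, ?_, by omega⟩
    rw [mem_filter, mem_Ico]
    have e : p - 2 + 2 = p := by omega
    rw [e]
    exact ⟨by omega, hp.2⟩

theorem GS_eq {n r c l T A L : ℕ} (h4 : ¬ 4 ∣ n) (hc : c = 13 ∨ c = 19) (h1 : 29 * n ≤ (A - T) ^ 2)
    (h2 : (A + L) ^ 2 ≤ 30 * n) :
    GS n r c l T A L = Pool.Agent.V11237.LP.Pt.GS 30 (c - 2) h n r l T (A - 2) L := by
  classical
  have hn : 1 ≤ n := by
    by_contra hcon
    apply h4
    have : n = 0 := by omega
    rw [this]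
    exact dvd_zero 4
  have hAT : 5 ≤ A - T := by
    by_contra hcon
    have : (A - T) ^ 2 ≤ 4 ^ 2 := Nat.pow_le_pow_left (by omega) 2
    omega
  have hG : ∀ m : ℕ, A - T ≤ m + 2 → m + 2 ≤ A + L →
      (Good n r c (m + 2) ↔ Pool.Agent.V11237.LP.Pt.Good 30 (c - 2) h n r m) := fun m a b =>
    good_iff h4 hc (by omega) (h1.trans (Nat.pow_le_pow_left a 2)) ((Nat.pow_le_pow_left b 2).trans h2)
  unfold GS Pool.Agent.V11237.LP.Pt.GS
  rw [shift_Ioc _ (by omega : 2 ≤ A)]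
  congr 1
  apply filter_congr
  intro m hm
  rw [mem_Ioc] at hm
  rw [hG m (by omega) (by omega)]
  apply and_congr_right
  intro _
  rw [shift_Ico _ (by omega : T ≤ m)]
  have e : (Ico (m - T) m).filter (fun s => Good n r c (s + 2)) =
      (Ico (m - T) m).filter (fun s => Pool.Agent.V11237.LP.Pt.Good 30 (c - 2) h n r s) := by
    apply filter_congr
    intro s hs
    rw [mem_Ico] at hs
    exact hG s (by omega) (by omega)
  rw [e]

/-- Let `c = 13` or `c = 19`, `θ > 0`, `l₀`, `x₀`, `ε > 0`. There is `r₀` such that for every `r ≥ r₀` and all large `n`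
not divisible by `4`: if `p ≤ n` is good, the four numbers have at most `r` prime factors; `V > 0`; and for all
`A`, `L`, `T`, `l` with `29 n ≤ (A - T)²`, `(A + L)² ≤ 30 n`, `L ≥ n ^ θ`, and `l ≤ l₀` or `T V ≤ x₀`, the number of the
good `p` in `(A, A + L]` with fewer than `l` good numbers in `[p - T, p)` is
`L V ∑_{j < l} e ^ (-T V) (T V) ^ j / j!` up to at most `ε L V`. -/
theorem result (c : ℕ) (hc : c = 13 ∨ c = 19) (θ : ℝ) (hθ : 0 < θ) (l₀ : ℕ) (x₀ ε : ℝ) (hε : 0 < ε) :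
    ∃ r₀ : ℕ, 2 ≤ r₀ ∧ ∀ r : ℕ, r₀ ≤ r → ∃ n₀ : ℕ, ∀ n : ℕ, n₀ ≤ n → ¬ 4 ∣ n →
      (∀ p : ℕ, p ≤ n → Good n r c p → ∀ i, (num p i).primeFactorsList.length ≤ r) ∧ 0 < V n r ∧
      ∀ A L T l : ℕ, 29 * n ≤ (A - T) ^ 2 → (A + L) ^ 2 ≤ 30 * n → (n : ℝ) ^ θ ≤ L →
        (l ≤ l₀ ∨ T * V n r ≤ x₀) →
        |(GS n r c l T A L : ℝ) - L * V n r *
          ∑ j ∈ range l, Real.exp (-(T * V n r)) * (T * V n r) ^ j / j.factorial| ≤ ε * (L * V n r) := by
  obtain ⟨r₀, hr₀, H⟩ := Pool.Agent.V11237.LP.Pt.short (pat c hc) (by decide) θ hθ l₀ x₀ ε hε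
  refine ⟨r₀, hr₀, fun r hr => ?_⟩
  obtain ⟨N₀, H⟩ := H r hr
  refine ⟨max N₀ 100, fun n hn h4 => ?_⟩
  obtain ⟨⟨H1, H2⟩, H3⟩ := H n ((le_max_left _ _).trans hn)
  have hn100 : 100 ≤ n := (le_max_right _ _).trans hn
  have hV : Pool.Agent.V11237.LP.Pt.V 5 30 4 n r = V n r := by
    unfold Pool.Agent.V11237.LP.Pt.V V
    norm_num
  rw [hV] at H2 H3
  refine ⟨?_, H2, ?_⟩
  · intro p hp hg i
    obtain ⟨m, rfl⟩ : ∃ m, p = m + 2 := ⟨p - 2, by have := hg.1; omega⟩
    rw [num_h]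
    refine H1 m (by omega) ?_ i
    unfold Good at hg
    simp only [num_h] at hg
    exact ⟨by omega, hg.2.2.2⟩
  · intro A L T l a1 a2 a3 a4
    rw [GS_eq h4 hc a1 a2]
    refine H3 (A - 2) L ?_ a3 l T a4
    have h5 : (A - T) ^ 2 ≤ A ^ 2 := Nat.pow_le_pow_left (by omega) 2
    have h6 : 50 ≤ A := by
      by_contra hcon
      have : A ^ 2 ≤ 49 ^ 2 := Nat.pow_le_pow_left (by omega) 2
      omega
    omega

end Pool.Agent.Results.MP_40574a_nt.LawsInShortWindows
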