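import Pool.Agent.V11249.NP.Fam
import Pool.Agent.Results.MP_40574a_nt.ChenQuadruple

/-!
# Four squares and prime quadruples: arithmetic progressions of values of one integer

Let `4 ∤ n`. We count the progressions `p, p + d, …, p + (k - 1) d` of numbers all of which are values of `x + 2 y + 5 z`
at representations `n = x² + y² + z² + w²` in natural numbers with `p - 2`, `p`, `p + 4`, `p + 10` prime (or almost
prime), in the windows `(A, A + L]` with `29 n ≤ A ²`, `(A + L)² ≤ 30 n` (there every number coprime to `30` is a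
value), with differences `d ≤ D`, `D` between a power of `log L` and `L`. The expected order is `L D / log ^ (4 k) L`.
-/

set_option autoImplicit false

open Finset Polynomial

namespace Pool.Agent.Results.MP_40574a_nt.ProgressionsOfQuadruples

/-- `p` is the value of `x + 2 y + 5 z` at a representation of `n` as a sum of four squares of natural numbers -/
def Val (n p : ℕ) : Prop :=
  ∃ x y z w : ℕ, n = x ^ 2 + y ^ 2 + z ^ 2 + w ^ 2 ∧ p = x + 2 * y + 5 * z

/-- the four numbers `p - 2`, `p`, `p + 4`, `p + 10` -/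
def num (p : ℕ) (i : Fin 4) : ℕ := ![p - 2, p, p + 4, p + 10] i

/-- the window `(A, A + L]` lies between `√(29 n)` and `√(30 n)` -/
def Win (n A L : ℕ) : Prop := 29 * n ≤ A ^ 2 ∧ (A + L) ^ 2 ≤ 30 * n

open Classical in
/-- the values `p` in `(A, A + L]` for which the four numbers are primes: the values at admissible representations -/
noncomputable def Adm (n A L : ℕ) : Finset ℕ :=
  (Ioc A (A + L)).filter (fun p => Val n p ∧ ∀ i, (num p i).Prime)

/-- `p` is a value and all prime factors of the four numbers are larger than `L ^ κ` -/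
def Rough (n : ℕ) (κ : ℝ) (L p : ℕ) : Prop :=
  Val n p ∧ ∀ i, ∀ q : ℕ, q.Prime → q ∣ num p i → (L : ℝ) ^ κ < q

open Classical in
/-- With `X = ⌊√(30 n)⌋`: the PRIME values `p > X ^ (1/t)` in `(A, A + L]` for which `p - 2`, `p + 4`, `p + 10` are products
of at most `t` primes `> X ^ (1/t)` and the `i`-th of them is a product of at most TWO primes, both `> X ^ (1/9)`. -/
noncomputable def Chen (t n : ℕ) (i : Fin 3) (A L : ℕ) : Finset ℕ := ChenQuadruple.P t n i A (A + L)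

open Classical in
/-- The number of the progressions `a, a + d, …, a + (k - 1) d` in `S` with `1 ≤ d ≤ D`. -/
noncomputable def AP (k D : ℕ) (S : Finset ℕ) : ℕ :=
  ((S ×ˢ Icc 1 D).filter (fun q => ∀ j < k, q.1 + j * q.2 ∈ S)).card

/-- the shifts -/
def sh : Fin 4 → ℤ := ![-2, 0, 4, 10]

/-- the system -/
noncomputable def F : Fin 4 → ℤ[X] := fun i => Pool.Agent.TH464.PW.quad 0 1 (sh i)

theorem sys : Pool.Agent.W123.RU.Poly.Sys F := by
  refine Pool.Agent.V11249.NP.sys_of (fun _ => 0) (fun _ => 1) sh ?_ ?_ ?_ 13 103 ?_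
  · intro i
    exact Or.inr ⟨rfl, by norm_num⟩
  · intro i
    simp [Int.gcd]
  · intro i j _ _ h
    revert i j
    decide
  · decide

theorem ev (i : Fin 4) (m : ℕ) : (F i).eval (m : ℤ) = m + sh i := by
  unfold F
  refine (Pool.Agent.TH464.PW.quad_eval _ _ _ _).trans ?_
  ring

theorem ev' (i : Fin 4) {m : ℕ} (hm : 2 < m) : (F i).eval (m : ℤ) = ((num m i : ℕ) : ℤ) := by
  rw [ev]
  unfold sh num
  fin_cases i
  · show (m : ℤ) + (-2) = ((m - 2 : ℕ) : ℤ)
    omega
  · show (m : ℤ) + 0 = ((m : ℕ) : ℤ)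
    omega
  · show (m : ℤ) + 4 = ((m + 4 : ℕ) : ℤ)
    omega
  · show (m : ℤ) + 10 = ((m + 10 : ℕ) : ℤ)
    omega

theorem win_large {n A L p : ℕ} (hn : 1 ≤ n) (hW : Win n A L) (hp : p ∈ Ioc A (A + L)) : 5 < p := by
  rw [mem_Ioc] at hp
  by_contra hcon
  have h1 : A ^ 2 ≤ 4 ^ 2 := Nat.pow_le_pow_left (by omega) 2
  have h2 := hW.1
  omega

/-- in the windows the condition of representability can be dropped -/
theorem adm_eq {n A L : ℕ} (h4 : ¬ 4 ∣ n) (hW : Win n A L) :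
    Adm n A L = (Ioc A (A + L)).filter (fun p : ℕ => ∀ i, ((F i).eval (p : ℤ)).natAbs.Prime) := by
  classical
  have hn : 1 ≤ n := by
    by_contra hcon
    apply h4
    have : n = 0 := by omega
    rw [this]
    exact dvd_zero 4
  unfold Adm
  apply filter_congr
  intro p hp
  have h5 := win_large hn hW hp
  have e : (∀ i, ((F i).eval (p : ℤ)).natAbs.Prime) ↔ ∀ i, (num p i).Prime := by
    refine forall_congr' fun i => ?_
    rw [ev' i (by omega), Int.natAbs_natCast]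
  rw [e]
  refine ⟨fun H => H.2, fun H => ⟨?_, H⟩⟩
  have hpp : p.Prime := H 1
  rw [mem_Ioc] at hp
  have hc : Nat.Coprime p 30 := by
    rw [Nat.Prime.coprime_iff_not_dvd hpp]
    intro hd
    have h30 : (30 : ℕ) = 2 * 3 * 5 := by norm_num
    rw [h30, hpp.dvd_mul, hpp.dvd_mul] at hd
    rcases hd with (hd | hd) | hd
    · have := Nat.le_of_dvd (by norm_num) hd
      omega
    · have := Nat.le_of_dvd (by norm_num) hd
      omega
    · have := Nat.le_of_dvd (by norm_num) hd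
      omega
  obtain ⟨x, y, z, w, h3, h6⟩ := Pool.Agent.H141R2.FS.rep h4 hc
    (hW.1.trans (Nat.pow_le_pow_left hp.1.le 2)) ((Nat.pow_le_pow_left hp.2 2).trans hW.2)
  exact ⟨x, y, z, w, h3, h6.symm⟩

theorem rgh {κ : ℝ} {n L p : ℕ} (hp : 2 < p) (h : Rough n κ L p) : Pool.Agent.V11249.NP.Rgh F κ L p := by
  intro i q hq hd
  have hd' : (q : ℤ) ∣ (F i).eval (p : ℤ) := hd
  rw [ev' i hp] at hd'
  exact h.2 i q hq (Int.natCast_dvd_natCast.1 hd')

/-- the elements of the Chen set are rough values -/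
theorem chen_rough {t n : ℕ} (ht : 1 ≤ t) {i : Fin 3} {A L p : ℕ} (hn : 1 ≤ n) (hW : Win n A L)
    (h : p ∈ Chen t n i A L) : Rough n (1 / (t : ℝ)) L p := by
  classical
  unfold Chen ChenQuadruple.P at h
  rw [mem_filter] at h
  obtain ⟨h1, h2, h3, h4, -, h6⟩ := h
  have h5 := win_large hn hW h1
  have hLX : L ≤ Nat.sqrt (30 * n) := by
    rw [Nat.le_sqrt']
    exact (Nat.pow_le_pow_left (by omega) 2).trans hW.2
  have hpow : (L : ℝ) ^ (1 / (t : ℝ)) ≤ ((Nat.sqrt (30 * n) : ℕ) : ℝ) ^ (1 / (t : ℝ)) :=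
    Real.rpow_le_rpow (Nat.cast_nonneg _) (by exact_mod_cast hLX) (by positivity)
  refine ⟨h3, fun j q hq hd => lt_of_le_of_lt hpow ?_⟩
  unfold num at hd
  fin_cases j
  · have hd' : q ∣ p - 2 := hd
    refine (h6 0).2.2 q hq ?_
    show (q : ℤ) ∣ (p : ℤ) - 2
    have : ((p - 2 : ℕ) : ℤ) = (p : ℤ) - 2 := by omega
    rw [← this]
    exact Int.natCast_dvd_natCast.2 hd'
  · have hd' : q ∣ p := hd
    rw [(Nat.prime_dvd_prime_iff_eq hq h2).1 hd']
    exact h4
  · have hd' : q ∣ p + 4 := hd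
    refine (h6 1).2.2 q hq ?_
    show (q : ℤ) ∣ (p : ℤ) + 4
    exact_mod_cast Int.natCast_dvd_natCast.2 hd'
  · have hd' : q ∣ p + 10 := hd
    refine (h6 2).2.2 q hq ?_
    show (q : ℤ) ∣ (p : ℤ) + 10
    exact_mod_cast Int.natCast_dvd_natCast.2 hd'

/-- There is `t` such that for every `k ≥ 1`, all constants below being positive:
(1) for every `κ > 0` and every `D ≥ log ^ B L` a set `S` of rough values in a window `(A, A + L]` contains at most
`C L D / log ^ (4 k) L` progressions of length `k` with differences at most `D`;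
(2) it contains at least `c L D / log ^ (4 k) L` of them if it has at least `δ L / log ^ 4 L` elements, and it has
at least `c L / log ^ 4 L` elements if it contains at least `δ L D / log ^ (4 k) L` of them, for all `D` between
`log ^ B L` and `L`;
(3), (4) the same for the set `Adm n A L` of the values at admissible representations of `n`;
(5) for `L ≥ θ √n`, `n` large, every subset of `Chen t n i A L` of relative density `δ` contains at least
`c L D / log ^ (4 k) L` of these progressions. -/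
theorem result : ∃ t : ℕ, 1 ≤ t ∧ ∀ k : ℕ, 1 ≤ k →
    (∀ κ : ℝ, 0 < κ → ∃ C : ℝ, 0 < C ∧ ∃ B L₀ : ℕ, ∀ n A L D : ℕ, ¬ 4 ∣ n → Win n A L → L₀ ≤ L →
      Real.log L ^ B ≤ D → ∀ S : Finset ℕ, S ⊆ Ioc A (A + L) → (∀ p ∈ S, Rough n κ L p) →
        (AP k D S : ℝ) ≤ C * (L * D / Real.log L ^ (4 * k))) ∧
    (∀ κ δ : ℝ, 0 < κ → 0 < δ → ∃ c : ℝ, 0 < c ∧ ∃ B L₀ : ℕ, ∀ n A L D : ℕ, ¬ 4 ∣ n → Win n A L → L₀ ≤ L →
      Real.log L ^ B ≤ D → D ≤ L → ∀ S : Finset ℕ, S ⊆ Ioc A (A + L) → (∀ p ∈ S, Rough n κ L p) →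
        (δ * (L / Real.log L ^ 4) ≤ S.card → c * (L * D / Real.log L ^ (4 * k)) ≤ AP k D S) ∧
        (δ * (L * D / Real.log L ^ (4 * k)) ≤ AP k D S → c * (L / Real.log L ^ 4) ≤ S.card)) ∧
    (∃ C : ℝ, 0 < C ∧ ∃ B L₀ : ℕ, ∀ n A L D : ℕ, ¬ 4 ∣ n → Win n A L → L₀ ≤ L → Real.log L ^ B ≤ D →
      (AP k D (Adm n A L) : ℝ) ≤ C * (L * D / Real.log L ^ (4 * k))) ∧
    (∀ δ : ℝ, 0 < δ → ∃ c : ℝ, 0 < c ∧ ∃ B L₀ : ℕ, ∀ n A L D : ℕ, ¬ 4 ∣ n → Win n A L → L₀ ≤ L →
      Real.log L ^ B ≤ D → D ≤ L →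
      (δ * (L / Real.log L ^ 4) ≤ (Adm n A L).card → c * (L * D / Real.log L ^ (4 * k)) ≤ AP k D (Adm n A L)) ∧
      (δ * (L * D / Real.log L ^ (4 * k)) ≤ AP k D (Adm n A L) → c * (L / Real.log L ^ 4) ≤ (Adm n A L).card)) ∧
    (∀ θ δ : ℝ, 0 < θ → 0 < δ → ∃ c : ℝ, 0 < c ∧ ∃ B n₀ : ℕ, ∀ n : ℕ, n₀ ≤ n → ¬ 4 ∣ n → ∀ A L : ℕ, Win n A L →
      θ * √n ≤ L → ∀ i : Fin 3, c * (L / Real.log L ^ 4) ≤ (Chen t n i A L).card ∧
        ∀ D : ℕ, Real.log L ^ B ≤ D → D ≤ L → ∀ S : Finset ℕ, S ⊆ Chen t n i A L →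
          δ * (Chen t n i A L).card ≤ S.card → c * (L * D / Real.log L ^ (4 * k)) ≤ AP k D S) := by
  classical
  obtain ⟨t, ht, c₀, hc₀, hch, -⟩ := ChenQuadruple.result
  refine ⟨t, ht, fun k hk => ?_⟩
  have h0 : ∀ n : ℕ, ¬ 4 ∣ n → 1 ≤ n := by
    intro n h4
    by_contra hcon
    apply h4
    have : n = 0 := by omega
    rw [this]
    exact dvd_zero 4
  obtain ⟨t1, t2, t3, t4⟩ := Pool.Agent.V11249.NP.transfer F sys
    (fun κ L p => Pool.Agent.V11249.NP.Rgh F κ L p)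
    (fun A L => (Ioc A (A + L)).filter (fun p : ℕ => ∀ i, ((F i).eval (p : ℤ)).natAbs.Prime))
    (fun κ L p _ h => h) (fun A L p => by rw [mem_filter, mem_Ioc]) k hk
  refine ⟨?_, ?_, ?_, ?_, ?_⟩
  · intro κ hκ
    obtain ⟨C, hC, B, L₀, h⟩ := t1 κ hκ
    refine ⟨C, hC, B, L₀, fun n A L D h4 hW hL hD S hS hR => ?_⟩
    exact h L A D hL hD S hS (fun p hp => rgh (by have := win_large (h0 n h4) hW (hS hp); omega) (hR p hp))
  · intro κ δ hκ hδ
    obtain ⟨c, hc, B, L₀, h⟩ := t2 κ δ hκ hδ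
    refine ⟨c, hc, B, L₀, fun n A L D h4 hW hL hD hDL S hS hR => ?_⟩
    exact h L A D hL hD hDL S hS (fun p hp => rgh (by have := win_large (h0 n h4) hW (hS hp); omega) (hR p hp))
  · obtain ⟨C, hC, B, L₀, h⟩ := t3
    refine ⟨C, hC, B, L₀, fun n A L D h4 hW hL hD => ?_⟩
    rw [adm_eq h4 hW]
    exact h L A D hL hD
  · intro δ hδ
    obtain ⟨c, hc, B, L₀, h⟩ := t4 δ hδ
    refine ⟨c, hc, B, L₀, fun n A L D h4 hW hL hD hDL => ?_⟩
    rw [adm_eq h4 hW]
    exact h L A D hL hD hDL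
  · intro θ δ hθ hδ
    obtain ⟨n₁, hch⟩ := hch θ hθ
    obtain ⟨c, hc, B, L₀, h⟩ := t2 (1 / (t : ℝ)) (δ * (c₀ / 81)) (by positivity) (by positivity)
    have hbig : ∀ᶠ n : ℕ in Filter.atTop, ((max L₀ 3 : ℕ) : ℝ) ≤ θ * √n :=
      (Filter.Tendsto.const_mul_atTop hθ
        (Real.tendsto_sqrt_atTop.comp tendsto_natCast_atTop_atTop)).eventually (Filter.eventually_ge_atTop _)
    have hbig2 : ∀ᶠ n : ℕ in Filter.atTop, 1 / θ ^ 6 ≤ (n : ℝ) :=
      tendsto_natCast_atTop_atTop.eventually (Filter.eventually_ge_atTop _)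
    obtain ⟨n₂, hn₂⟩ := Filter.eventually_atTop.1 (hbig.and hbig2)
    refine ⟨min c (c₀ / 81), by positivity, B, max n₁ (max n₂ 3), fun n hn h4 A L hW hL i => ?_⟩
    obtain ⟨g1, g2⟩ := hn₂ n (by omega)
    have hn3 : (3 : ℝ) ≤ n := by exact_mod_cast (by omega : 3 ≤ n)
    have hL0 : max L₀ 3 ≤ L := by
      have : ((max L₀ 3 : ℕ) : ℝ) ≤ L := g1.trans hL
      exact_mod_cast this
    have hL3 : (3 : ℝ) ≤ L := by exact_mod_cast (by omega : 3 ≤ L)
    have hlL : 0 < Real.log L := Real.log_pos (by linarith)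
    -- `log n ≤ 3 log L`
    have hlog : Real.log n ≤ 3 * Real.log L := by
      have h6 : (n : ℝ) ≤ (L : ℝ) ^ 3 := by
        have e1 : (θ * √n) ^ 3 ≤ (L : ℝ) ^ 3 := pow_le_pow_left₀ (by positivity) hL 3
        refine le_trans ?_ e1
        have e2 : (n : ℝ) ^ 2 ≤ ((θ * √n) ^ 3) ^ 2 := by
          have e3 : ((θ * √n) ^ 3) ^ 2 = θ ^ 6 * (n : ℝ) ^ 3 := by
            have e4 : √(n : ℝ) ^ 2 = n := Real.sq_sqrt (by positivity)
            calc ((θ * √n) ^ 3) ^ 2 = θ ^ 6 * (√(n : ℝ) ^ 2) ^ 3 := by ring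
              _ = _ := by rw [e4]
          rw [e3]
          rw [div_le_iff₀ (by positivity)] at g2
          have e5 : (n : ℝ) ^ 2 * 1 ≤ (n : ℝ) ^ 2 * (n * θ ^ 6) := mul_le_mul_of_nonneg_left g2 (by positivity)
          linarith
        exact (pow_le_pow_iff_left₀ (by positivity) (by positivity) (by norm_num)).1 e2
      calc Real.log n ≤ Real.log ((L : ℝ) ^ 3) := Real.log_le_log (by linarith) h6
        _ = _ := by rw [Real.log_pow]; norm_num
    have hln : 0 < Real.log n := Real.log_pos (by linarith)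
    have hcard : c₀ / 81 * (L / Real.log L ^ 4) ≤ (Chen t n i A L).card := by
      have h5 := hch n (by omega) h4 A (A + L) hW.1 hW.2 (by push_cast; linarith) i
      refine le_trans ?_ h5
      have e6 : ((A + L : ℕ) : ℝ) - A = L := by push_cast; ring
      rw [e6]
      rw [show c₀ / 81 * (L / Real.log L ^ 4) = c₀ * L / (3 * Real.log L) ^ 4 by
        rw [mul_pow]
        field_simp
        ring]
      apply div_le_div_of_nonneg_left (by positivity) (by positivity)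
      exact pow_le_pow_left₀ hln.le hlog 4
    have hLl : 0 ≤ (L : ℝ) / Real.log L ^ 4 := by positivity
    refine ⟨le_trans (mul_le_mul_of_nonneg_right (min_le_right _ _) hLl) hcard, fun D hD hDL S hS hSc => ?_⟩
    have hSub : S ⊆ Ioc A (A + L) := by
      intro p hp
      have h7 := hS hp
      unfold Chen ChenQuadruple.P at h7
      exact (mem_filter.1 h7).1
    have h8 := (h L A D (by omega) hD hDL S hSub (fun p hp =>
      rgh (by have := win_large (h0 n h4) hW (hSub hp); omega) (chen_rough ht (h0 n h4) hW (hS hp)))).1 (by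
        refine le_trans ?_ hSc
        calc δ * (c₀ / 81) * (L / Real.log L ^ 4) = δ * (c₀ / 81 * (L / Real.log L ^ 4)) := by ring
          _ ≤ _ := mul_le_mul_of_nonneg_left hcard hδ.le)
    refine le_trans (mul_le_mul_of_nonneg_right (min_le_left _ _) (by positivity)) h8

end Pool.Agent.Results.MP_40574a_nt.ProgressionsOfQuadruples
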