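import Pool.Agent.V11249.NP.Reg
import Pool.Agent.V11249.NP.Fam
import Pool.Agent.H141R2.FS.Main1

/-!
# Four squares and almost prime quadruples: regular windows, for every large integer

For every large `n` not divisible by `4`: among the `p` with `29 n ≤ p ² ≤ 30 n`, which are values of `x + 2 y + 5 z` at
a representation `n = x² + y² + z² + w²` in natural numbers and for which all of `p - 2`, `p`, `p + 4`, `p + 10` are
almost prime, the gaps are governed in every short interval: a positive proportion of the integers `c` of the interval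
are regular (every window around `c` of length between `K log ^ 4 X` and the length `Y` of the interval contains the
right order of such `p`), and their density around `c` is constant at all but boundedly many scales.
-/

set_option autoImplicit false

open Finset Filter Polynomial

namespace Pool.Agent.Results.MP_40574a_nt.RegularWindows

/-- `p` is the value of `x + 2 y + 5 z` at a representation of `n` as a sum of four squares of natural numbers -/
def Val (n p : ℕ) : Prop :=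
  ∃ x y z w : ℕ, n = x ^ 2 + y ^ 2 + z ^ 2 + w ^ 2 ∧ p = x + 2 * y + 5 * z

/-- the four numbers `p - 2`, `p`, `p + 4`, `p + 10` -/
def num (p : ℕ) (i : Fin 4) : ℕ := ![p - 2, p, p + 4, p + 10] i

/-- `p > 2` is a value and all four numbers have at most `r` prime factors (with multiplicity), all larger than `z` -/
def Quad (n r : ℕ) (z : ℝ) (p : ℕ) : Prop :=
  2 < p ∧ Val n p ∧ ∀ i, (num p i).primeFactorsList.length ≤ r ∧ ∀ q : ℕ, q.Prime → q ∣ num p i → z < q

open Classical in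
/-- the number of such `p` in `(a, b]`, all prime factors being larger than `X ^ (1 / r)` -/
noncomputable def cnt (n r X a b : ℕ) : ℕ :=
  ((Ioc a b).filter (fun p => Quad n r ((X : ℝ) ^ (1 / (r : ℝ))) p)).card

/-- all windows `(a, b]` around `c`, of length between `K log ^ 4 X` and `Y`, contain the right order of such `p` -/
def Regular (n r : ℕ) (c₁ c₂ K : ℝ) (X Y c : ℕ) : Prop :=
  ∀ a b : ℕ, a ≤ c → c ≤ b → K * Real.log X ^ 4 ≤ (b : ℝ) - a → (b : ℝ) - a ≤ Y →
    c₁ * ((b : ℝ) - a) / Real.log X ^ 4 ≤ (cnt n r X a b : ℝ) ∧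
    (cnt n r X a b : ℝ) ≤ c₂ * ((b : ℝ) - a) / Real.log X ^ 4

/-- the density is constant on `[c - 2 ^ j, c + 2 ^ j]`, up to `δ` -/
def Constant (n r : ℕ) (c₁ c₂ δ : ℝ) (X c j : ℕ) : Prop :=
  ∃ lam : ℝ, c₁ ≤ lam ∧ lam ≤ c₂ ∧ ∀ u v : ℕ, c ≤ u + 2 ^ j → u ≤ v → v ≤ c + 2 ^ j →
    |(cnt n r X u v : ℝ) - lam * ((v : ℝ) - u) / Real.log X ^ 4| ≤ δ * 2 ^ j / Real.log X ^ 4

open Classical in
/-- the number of the scales `2 ^ j` between `log ^ 4 X` and `Y` at which the density is not constant -/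
noncomputable def badScales (n r : ℕ) (c₁ c₂ δ : ℝ) (X Y c : ℕ) : ℕ :=
  ((range (Nat.log 2 Y + 1)).filter (fun j => Real.log X ^ 4 ≤ (2 : ℝ) ^ j ∧ ¬ Constant n r c₁ c₂ δ X c j)).card

/-- the shifts -/
def sh : Fin 4 → ℤ := ![-2, 0, 4, 10]

/-- the system -/
noncomputable def F : Fin 4 → ℤ[X] := fun i => Pool.Agent.TH464.PW.quad 0 1 (sh i)

theorem sys : Pool.Agent.W123.RU.Poly.Sys F := by
  refine Pool.Agent.V11249.NP.sys_of (fun _ => 0) (fun _ => 1) sh ?_ ?_ ?_ 13 103 ?_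
  · intro i
    exact Or.inr ⟨rfl, by norm_num⟩
  · intro i
    simp [Int.gcd]
  · intro i j _ _ h
    revert i j
    decide
  · decide

theorem ev (i : Fin 4) (m : ℕ) : (F i).eval (m : ℤ) = m + sh i := by
  unfold F
  refine (Pool.Agent.TH464.PW.quad_eval _ _ _ _).trans ?_
  ring

theorem ev' (i : Fin 4) {m : ℕ} (hm : 2 < m) : (F i).eval (m : ℤ) = ((num m i : ℕ) : ℤ) := by
  rw [ev]
  unfold sh num
  fin_cases i
  · show (m : ℤ) + (-2) = ((m - 2 : ℕ) : ℤ)
    omega
  · show (m : ℤ) + 0 = ((m : ℕ) : ℤ)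
    omega
  · show (m : ℤ) + 4 = ((m + 4 : ℕ) : ℤ)
    omega
  · show (m : ℤ) + 10 = ((m + 10 : ℕ) : ℤ)
    omega

/-- in the window every almost prime quadruple is represented -/
theorem quad_iff {n r : ℕ} {z : ℝ} {p : ℕ} (h4 : ¬ 4 ∣ n) (hz : r = 0 ∨ (30 : ℝ) < z) (hp : 2 < p) (h1 : 29 * n ≤ p ^ 2)
    (h2 : p ^ 2 ≤ 30 * n) : Quad n r z p ↔ Pool.Agent.TH464.PW.Almost F r z p := by
  unfold Quad Pool.Agent.TH464.PW.Almost
  have e : ∀ i, (((F i).eval (p : ℤ)).natAbs.primeFactorsList.length ≤ r ∧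
      ∀ q : ℕ, q.Prime → (q : ℤ) ∣ (F i).eval (p : ℤ) → z < (q : ℝ)) ↔
      ((num p i).primeFactorsList.length ≤ r ∧ ∀ q : ℕ, q.Prime → q ∣ num p i → z < q) := by
    intro i
    rw [ev' i hp, Int.natAbs_natCast]
    simp only [Int.natCast_dvd_natCast]
  simp only [e]
  refine ⟨fun H => H.2.2, fun H => ⟨hp, ?_, H⟩⟩
  rcases hz with hz | hz
  · exfalso
    have h5 := (H 1).1
    have h6 : p.primeFactorsList.length ≤ r := h5
    have h7 : p.primeFactorsList = [] := List.length_eq_zero_iff.1 (by omega)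
    rcases (Nat.primeFactorsList_eq_nil p).1 h7 with h8 | h8 <;> omega
  have hc : Nat.Coprime p 30 := by
    apply Nat.Coprime.symm
    rw [Nat.coprime_iff_gcd_eq_one]
    by_contra hne
    obtain ⟨q, hq, hq1, hq2⟩ := Nat.Prime.not_coprime_iff_dvd.1 hne
    have hq30 : q ≤ 30 := Nat.le_of_dvd (by norm_num) hq1
    have hq30' : (q : ℝ) ≤ 30 := by exact_mod_cast hq30
    have := (H 1).2 q hq hq2
    linarith
  obtain ⟨x, y, z, w, h3, h5⟩ := Pool.Agent.H141R2.FS.rep h4 hc h1 h2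
  exact ⟨x, y, z, w, h3, h5.symm⟩

open Classical in
/-- **Regular windows of represented quadruples.** For `0 < θ < 1` there are `r` and `c₁, c₂, K, κ > 0` such that for
every `δ > 0` there are `B` and `n₀` with: for all `n ≥ n₀` not divisible by `4` and all `X`, `Y` with `X ^ θ ≤ Y`,
`29 n ≤ (X - Y)²`, `(X + 2 Y)² ≤ 30 n`: at least `κ Y` of the `c` in `(X, X + Y]` are regular and have at most `B` scales
at which the density is not constant up to `δ`. -/
theorem result (θ : ℝ) (hθ : 0 < θ) (hθ1 : θ < 1) :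
    ∃ (r : ℕ) (c₁ c₂ K κ : ℝ), 0 < c₁ ∧ 0 < c₂ ∧ 0 < K ∧ 0 < κ ∧ ∀ δ : ℝ, 0 < δ → ∃ B n₀ : ℕ,
      ∀ n : ℕ, n₀ ≤ n → ¬ 4 ∣ n → ∀ X Y : ℕ, (X : ℝ) ^ θ ≤ Y → 29 * n ≤ (X - Y) ^ 2 → (X + 2 * Y) ^ 2 ≤ 30 * n →
        κ * Y ≤ (((Ioc X (X + Y)).filter (fun c =>
          Regular n r c₁ c₂ K X Y c ∧ badScales n r c₁ c₂ δ X Y c ≤ B)).card : ℝ) := by
  obtain ⟨r, c₁, c₂, K, κ, h1, h2, h3, h4, h⟩ := Pool.Agent.V11249.NP.reg_win (g := 4) (by norm_num) F sys
    (Pool.Agent.TH464.PW.Almost F) (fun _ _ _ => Iff.rfl) θ hθ hθ1.le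
  refine ⟨r, c₁, c₂, K, κ, h1, h2, h3, h4, fun δ hδ => ?_⟩
  obtain ⟨B, hB⟩ := h δ hδ
  have hz : ∀ᶠ X : ℕ in atTop, r = 0 ∨ (30 : ℝ) < (X : ℝ) ^ (1 / (r : ℝ)) := by
    rcases Nat.eq_zero_or_pos r with hr | hr
    · exact Eventually.of_forall fun _ => Or.inl hr
    · filter_upwards [((tendsto_rpow_atTop (show (0 : ℝ) < 1 / (r : ℝ) by positivity)).comp
        tendsto_natCast_atTop_atTop).eventually (eventually_gt_atTop 30)] with X hX
      exact Or.inr hX
  obtain ⟨X₀, hX₀⟩ := eventually_atTop.1 (hB.and hz)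
  refine ⟨B, max (X₀ ^ 2) 1, fun n hn hn4 X Y hXY hl hu => ?_⟩
  have hn1 : 1 ≤ n := (le_max_right _ _).trans hn
  have hn2 : X₀ ^ 2 ≤ n := (le_max_left _ _).trans hn
  have hXY1 : 0 < X - Y := by
    by_contra hcon
    have : X - Y = 0 := by omega
    rw [this] at hl
    omega
  have hYX : Y ≤ X := by omega
  have hXX : (X - Y) ^ 2 ≤ X ^ 2 := Nat.pow_le_pow_left (by omega) 2
  have hX0 : X₀ ≤ X := by
    by_contra hcon
    have : X ^ 2 < X₀ ^ 2 := Nat.pow_lt_pow_left (by omega) (by norm_num)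
    omega
  have h29 : 5 ≤ X - Y := by
    by_contra hcon
    have : (X - Y) ^ 2 ≤ 4 ^ 2 := Nat.pow_le_pow_left (by omega) 2
    omega
  obtain ⟨hmain, hz⟩ := hX₀ X hX0
  refine (hmain Y hXY hYX).trans ?_
  have key : ∀ a b : ℕ, X - Y ≤ a → b ≤ X + 2 * Y →
      ((Ioc a b).filter (fun m => Pool.Agent.TH464.PW.Almost F r ((X : ℝ) ^ (1 / (r : ℝ))) m)).card =
        cnt n r X a b := by
    intro a b ha hb
    unfold cnt
    congr 1
    apply filter_congr
    intro p hp
    rw [mem_Ioc] at hp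
    refine (quad_iff hn4 hz (by omega) ?_ ?_).symm
    · exact hl.trans (Nat.pow_le_pow_left (by omega) 2)
    · exact (Nat.pow_le_pow_left (by omega) 2).trans hu
  have hcard : ((Ioc X (X + Y)).filter (fun c =>
      (∀ a b : ℕ, a ≤ c → c ≤ b → K * Real.log X ^ 4 ≤ (b : ℝ) - a → (b : ℝ) - a ≤ Y →
        c₁ * ((b : ℝ) - a) / Real.log X ^ 4 ≤
          (((Ioc a b).filter (fun m => Pool.Agent.TH464.PW.Almost F r ((X : ℝ) ^ (1 / (r : ℝ))) m)).card : ℝ) ∧
        (((Ioc a b).filter (fun m => Pool.Agent.TH464.PW.Almost F r ((X : ℝ) ^ (1 / (r : ℝ))) m)).card : ℝ) ≤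
          c₂ * ((b : ℝ) - a) / Real.log X ^ 4) ∧
      ((range (Nat.log 2 Y + 1)).filter (fun j => Real.log X ^ 4 ≤ (2 : ℝ) ^ j ∧
        ¬ ∃ lam : ℝ, c₁ ≤ lam ∧ lam ≤ c₂ ∧ ∀ u v : ℕ, c ≤ u + 2 ^ j → u ≤ v → v ≤ c + 2 ^ j →
          |(((Ioc u v).filter (fun m => Pool.Agent.TH464.PW.Almost F r ((X : ℝ) ^ (1 / (r : ℝ))) m)).card : ℝ) -
            lam * ((v : ℝ) - u) / Real.log X ^ 4| ≤ δ * 2 ^ j / Real.log X ^ 4)).card ≤ B)).card ≤
      ((Ioc X (X + Y)).filter (fun c => Regular n r c₁ c₂ K X Y c ∧ badScales n r c₁ c₂ δ X Y c ≤ B)).card := by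
    apply card_le_card
    intro c hc
    rw [mem_filter] at hc ⊢
    obtain ⟨hc1, hc2, hc3⟩ := hc
    refine ⟨hc1, ?_, ?_⟩
    · intro a b ha hb hab1 hab2
      rw [mem_Ioc] at hc1
      have hab3 : b ≤ a + Y := by
        have : (b : ℝ) ≤ ((a + Y : ℕ) : ℝ) := by push_cast; linarith
        exact_mod_cast this
      have h5 := hc2 a b ha hb hab1 hab2
      rw [key a b (by omega) (by omega)] at h5
      exact h5
    · refine le_trans (le_of_eq ?_) hc3
      unfold badScales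
      congr 1
      apply filter_congr
      intro j hj
      rw [mem_range] at hj
      rw [mem_Ioc] at hc1
      have hY0 : Y ≠ 0 := by omega
      have hj2 : 2 ^ j ≤ Y := Nat.pow_le_of_le_log hY0 (by omega)
      refine and_congr_right fun _ => not_congr ?_
      unfold Constant
      refine exists_congr fun lam => and_congr_right fun _ => and_congr_right fun _ => ?_
      refine forall_congr' fun u => forall_congr' fun v => ?_
      constructor
      · intro H g1 g2 g3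
        have := H g1 g2 g3
        rwa [← key u v (by omega) (by omega)] at this
      · intro H g1 g2 g3
        have := H g1 g2 g3
        rwa [key u v (by omega) (by omega)] at this
  exact_mod_cast hcard

end Pool.Agent.Results.MP_40574a_nt.RegularWindows
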