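import Pool.Agent.Helper29.BE.Iter
import Pool.Agent.H141R2.FS.Main1
import Pool.Agent.TH110.Zig.Primes

/-!
# Four squares and prime tuples with shifts on average

Q1 asks for a representation of `n` as a sum of four squares for which `p = x + 2 y + 5 z` and `p - 2`,
`p + 4`, `p + 10` are primes. For EVERY large `n` not divisible by `4` and every `r` (`r = 3` for
quadruples) we consider the `r`-tuples of even shifts `h_1, ..., h_r ≤ H`, where `H` is between `n ^ 9`
and about `exp (n ^ (1 / (2 r)))`. For at least `c H ^ r / (log log log n) ^ r` of these tuples there is a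
representation of `n` for which `p = x + 2 y + 5 z` and all the numbers `p + h_1, ..., p + h_r` are prime.
The primes `p` can be taken from any given set of integers between `√(29 n)` and `√(30 n)`, coprime to
`30`, whose density is at least a power of `1 / log n`, for instance from a given residue class.

The proof is the second moment method with the sharp form of the upper bound sieve for prime pairs
and the moments of the singular factor over differences of the starting library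
(`Pool.Agent.H197R2.PG`), in a form for vectors (`Pool.Agent.Helper29.BE.main2`), and the representation
lemma of `Pool.Agent.H141R2.FS`.
-/

set_option autoImplicit false

open Finset Filter Topology

namespace Pool.Agent.Results.MP_40574a_nt.ShiftedQuadruples

/-- The `r`-tuples of even numbers `1 ≤ h j ≤ H` such that `n` has a representation as the sum of four
squares of natural numbers `x, y, z, w` for which `p = x + 2 y + 5 z` belongs to `A` and all the numbers
`p + h j` are prime. -/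
def good (r n H : ℕ) (A : Set ℕ) : Set (Fin r → ℕ) :=
  {h | (∀ j, 1 ≤ h j ∧ h j ≤ H ∧ Even (h j)) ∧ ∃ x y z w : ℕ, n = x ^ 2 + y ^ 2 + z ^ 2 + w ^ 2 ∧
    x + 2 * y + 5 * z ∈ A ∧ ∀ j, (x + 2 * y + 5 * z + h j).Prime}

lemma good_finite (r n H : ℕ) (A : Set ℕ) : (good r n H A).Finite := by
  apply (Finset.finite_toSet (Fintype.piFinset (fun _ : Fin r => Icc 1 H))).subset
  rintro h ⟨h2, -⟩
  rw [mem_coe, Fintype.mem_piFinset]
  intro j
  rw [mem_Icc]
  exact ⟨(h2 j).1, (h2 j).2.1⟩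

lemma good_mono {r n H : ℕ} {A B : Set ℕ} (h : A ⊆ B) : good r n H A ⊆ good r n H B := by
  rintro t ⟨h1, x, y, z, w, h2, h3, h4⟩
  exact ⟨h1, x, y, z, w, h2, h h3, h4⟩

open Pool.Agent.Helper29.BE in
theorem general (r B : ℕ) (hr : 1 ≤ r) : ∃ c : ℝ, 0 < c ∧ ∃ n₀ : ℕ, ∀ n : ℕ, n₀ ≤ n → ¬ 4 ∣ n →
    ∀ A : Finset ℕ, (∀ p ∈ A, Nat.Coprime p 30 ∧ 29 * n ≤ p ^ 2 ∧ p ^ 2 ≤ 30 * n) →
    √n ≤ Real.log n ^ B * #A → ∀ H : ℕ, n ^ 9 ≤ H → Real.log H ^ r ≤ #A →
    c * H ^ r / Real.log (Real.log (Real.log n)) ^ r ≤ ((good r n H A).ncard : ℝ) := by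
  classical
  obtain ⟨c, hc, n₁, h⟩ := shiftsD2 r (B + 1) hr
  have tsq : Tendsto (fun n : ℕ => Nat.sqrt (30 * n)) atTop atTop := by
    apply tendsto_atTop_mono' (f₁ := fun n : ℕ => Nat.sqrt n)
    · filter_upwards with n
      exact Nat.sqrt_le_sqrt (by omega)
    · apply tendsto_atTop_atTop.2
      intro b
      refine ⟨b ^ 2, fun a ha => ?_⟩
      exact Nat.le_sqrt'.2 ha
  have tl := tLog.comp tsq
  have tll : Tendsto (fun n : ℕ => Real.log (Real.log (Real.log ((Nat.sqrt (30 * n) : ℕ) : ℝ)))) atTop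
      atTop := (Real.tendsto_log_atTop.comp (Real.tendsto_log_atTop.comp tl))
  obtain ⟨n₂, hn₂⟩ := eventually_atTop.1 ((tl.eventually_ge_atTop (11 * 2 ^ B + 1)).and
    ((tll.eventually_ge_atTop 1).and ((tsq.eventually_ge_atTop n₁).and
      (eventually_ge_atTop (30 ^ 17)))))
  refine ⟨c, hc, n₂, fun n hn h4 A hA hAB H hH hHA => ?_⟩
  obtain ⟨g1, g2, g3, g4⟩ := hn₂ n hn
  set Y : ℕ := Nat.sqrt (30 * n) with hY
  change 11 * 2 ^ B + 1 ≤ Real.log (Y : ℝ) at g1
  have hYsq : Y ^ 2 ≤ 30 * n := Nat.sqrt_le' _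
  have hYlt : 30 * n < (Y + 1) ^ 2 := Nat.lt_succ_sqrt' _
  have hn30 : 30 ≤ n := le_trans (by norm_num) g4
  have hYn : Y ≤ n := by
    have h1 : Y ^ 2 ≤ n ^ 2 := hYsq.trans (by nlinarith)
    exact (Nat.pow_le_pow_iff_left (by norm_num)).1 h1
  have hn0 : (0 : ℝ) < n := by exact_mod_cast (by omega : 0 < n)
  have hY1 : 1 ≤ Y := by
    rcases Nat.eq_zero_or_pos Y with h0 | h0
    · rw [h0] at g1
      simp at g1
      have : (0 : ℝ) < 11 * 2 ^ B := by positivity
      linarith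
    · exact h0
  have hY0 : (0 : ℝ) < Y := by exact_mod_cast hY1
  have hlogn : Real.log n ≤ 2 * Real.log Y := by
    -- n ≤ Y ^ 2
    have h1 : n ≤ Y ^ 2 := by
      have h2 : (Y + 1) ^ 2 ≤ 4 * Y ^ 2 := by nlinarith
      omega
    have h2 : (n : ℝ) ≤ (Y : ℝ) ^ 2 := by exact_mod_cast h1
    have h3 := Real.log_le_log hn0 h2
    rw [Real.log_pow] at h3
    exact_mod_cast h3
  have hlogn0 : 0 ≤ Real.log (n : ℝ) := Real.log_natCast_nonneg _
  have hYpow : Y ^ 17 ≤ H := by
    refine le_trans ?_ hH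
    have h1 : (Y ^ 17) ^ 2 ≤ (n ^ 9) ^ 2 := by
      calc (Y ^ 17) ^ 2 = (Y ^ 2) ^ 17 := by ring
        _ ≤ (30 * n) ^ 17 := Nat.pow_le_pow_left hYsq 17
        _ = 30 ^ 17 * n ^ 17 := by ring
        _ ≤ n * n ^ 17 := Nat.mul_le_mul_right _ g4
        _ = (n ^ 9) ^ 2 := by ring
    exact (Nat.pow_le_pow_iff_left (by norm_num)).1 h1
  have h1 := h Y g3 Y H le_rfl hYpow A (fun _ t => t) (fun _ => true)
    (fun _ => fun a _ b _ hab => hab) (by
      intro _ t ht
      obtain ⟨h2, h3, h4⟩ := hA t ht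
      refine ⟨?_, Nat.le_sqrt'.2 h4⟩
      rw [← Nat.not_even_iff_odd]
      intro h5
      have h6 : 2 ∣ Nat.gcd t 30 := Nat.dvd_gcd h5.two_dvd (by norm_num)
      rw [h2] at h6
      omega) hHA (by
      have e1 : (Y : ℝ) ≤ √30 * √n := by
        rw [← Real.sqrt_mul (by norm_num)]
        apply Real.le_sqrt_of_sq_le
        exact_mod_cast hYsq
      have e2 : √(30 : ℝ) ≤ 11 / 2 := by
        rw [Real.sqrt_le_left (by norm_num)]
        norm_num
      have e3 : Real.log n ^ B ≤ (2 * Real.log Y) ^ B := pow_le_pow_left₀ hlogn0 hlogn B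
      have e4 : (0 : ℝ) < 11 * 2 ^ B := by positivity
      have hlY : 0 ≤ Real.log (Y : ℝ) := by linarith
      calc 2 * (Y : ℝ) ≤ 2 * (√30 * √n) := by linarith
        _ ≤ 2 * (11 / 2 * √n) := by gcongr
        _ = 11 * √n := by ring
        _ ≤ 11 * (Real.log n ^ B * #A) := by linarith
        _ ≤ 11 * ((2 * Real.log Y) ^ B * #A) := by gcongr
        _ = (11 * 2 ^ B) * (Real.log Y ^ B * #A) := by rw [mul_pow]; ring
        _ ≤ Real.log Y * (Real.log Y ^ B * #A) := by
            apply mul_le_mul_of_nonneg_right _ (by positivity)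
            linarith
        _ = Real.log Y ^ (B + 1) * #A := by ring)
  have hll1 : Real.log (Real.log (Real.log (Y : ℝ))) ≤ Real.log (Real.log (Real.log (n : ℝ))) := by
    have a1 : 0 < Real.log (Y : ℝ) := by
      have : (0 : ℝ) < 11 * 2 ^ B := by positivity
      linarith
    have a2 : Real.log (Y : ℝ) ≤ Real.log n := Real.log_le_log hY0 (by exact_mod_cast hYn)
    have a3 : 0 < Real.log (Real.log (Y : ℝ)) := by
      by_contra hcon
      push Not at hcon
      have a4 : (11 : ℝ) ≤ Real.log Y := by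
        have : (1 : ℝ) ≤ 2 ^ B := one_le_pow₀ (by norm_num)
        linarith
      have := Real.log_pos (by linarith : (1 : ℝ) < Real.log Y)
      linarith
    exact Real.log_le_log a3 (Real.log_le_log a1 a2)
  have h2 : c * (H : ℝ) ^ r / Real.log (Real.log (Real.log (n : ℝ))) ^ r ≤
      c * (H : ℝ) ^ r / Real.log (Real.log (Real.log (Y : ℝ))) ^ r := by
    apply div_le_div_of_nonneg_left (by positivity) (by
      have : 0 < Real.log (Real.log (Real.log (Y : ℝ))) := by linarith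
      positivity)
    exact pow_le_pow_left₀ (by linarith) hll1 r
  refine h2.trans (h1.trans ?_)
  apply Nat.cast_le.2
  rw [← Set.ncard_coe_finset]
  apply Set.ncard_le_ncard _ (good_finite r n H A)
  intro h hh
  rw [mem_coe] at hh
  unfold Sh2 at hh
  rw [mem_filter, Fintype.mem_piFinset] at hh
  obtain ⟨h2, p, hp, h3⟩ := hh
  obtain ⟨h5, h6, h7⟩ := hA p hp
  obtain ⟨x, y, z, w, h8, h9⟩ := Pool.Agent.H141R2.FS.rep h4 h5 h6 h7
  refine ⟨fun j => ?_, x, y, z, w, h8, ?_, fun j => ?_⟩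
  · have h4 := h2 j
    rw [mem_filter, mem_Icc] at h4
    exact ⟨h4.1.1, h4.1.2, h4.2⟩
  · rw [h9]
    exact mem_coe.2 hp
  · have h4 := h3 j
    rw [if_pos rfl] at h4
    rw [h9]
    exact h4

lemma pi_diff (a b : ℕ) :
    Nat.primeCounting b ≤ Nat.primeCounting a + #((Ioc a b).filter Nat.Prime) := by
  rw [Nat.primeCounting, Nat.primeCounting, Nat.primeCounting', Nat.count_eq_card_filter_range,
    Nat.count_eq_card_filter_range]
  rw [← card_union_of_disjoint]
  · apply card_le_card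
    intro p hp
    rw [mem_filter, mem_range] at hp
    rw [mem_union, mem_filter, mem_filter, mem_range, mem_Ioc]
    by_cases h1 : p < a + 1
    · exact Or.inl ⟨h1, hp.2⟩
    · exact Or.inr ⟨by omega, hp.2⟩
  · rw [disjoint_left]
    intro p hp hq
    rw [mem_filter, mem_range] at hp
    rw [mem_filter, mem_Ioc] at hq
    omega

/-- the primes between `√(29 n)` and `√(30 n)` -/
lemma primes_many : ∀ᶠ n : ℕ in atTop, √n / (10 * Real.log n) ≤
    (#((Ioc (Nat.sqrt (29 * n)) (Nat.sqrt (30 * n))).filter Nat.Prime) : ℝ) := by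
  have h1 := Pool.Agent.TH110.Zig.pnt_window 1 6 (1 / 1000) (by norm_num) (by norm_num)
  have ht : Tendsto (fun n : ℕ => √(n : ℝ)) atTop atTop :=
    Real.tendsto_sqrt_atTop.comp tendsto_natCast_atTop_atTop
  filter_upwards [ht.eventually h1, eventually_ge_atTop 3] with n h2 hn
  have hn3 : (3 : ℝ) ≤ n := by exact_mod_cast hn
  have hs0 : 0 < √(n : ℝ) := Real.sqrt_pos.2 (by linarith)
  have hlog : 0 < Real.log (n : ℝ) := Real.log_pos (by linarith)
  have hls : Real.log √(n : ℝ) = Real.log n / 2 := Real.log_sqrt (by linarith)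
  have h30 : √(30 : ℝ) ≤ 5.478 := by
    rw [Real.sqrt_le_left (by norm_num)]
    norm_num
  have h30' : (5.477 : ℝ) ≤ √(30 : ℝ) := Real.le_sqrt_of_sq_le (by norm_num)
  have h29 : √(29 : ℝ) ≤ 5.386 := by
    rw [Real.sqrt_le_left (by norm_num)]
    norm_num
  have h29' : (5.385 : ℝ) ≤ √(29 : ℝ) := Real.le_sqrt_of_sq_le (by norm_num)
  have a1 := h2 (√30 * √n) (by nlinarith) (by nlinarith)
  have a2 := h2 (√29 * √n) (by nlinarith) (by nlinarith)
  have e30 : ⌊√30 * √(n : ℝ)⌋₊ = Nat.sqrt (30 * n) := by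
    rw [← Real.sqrt_mul (by norm_num)]
    have := Real.nat_floor_real_sqrt_eq_nat_sqrt (a := 30 * n)
    rw [← this]
    push_cast
    rfl
  have e29 : ⌊√29 * √(n : ℝ)⌋₊ = Nat.sqrt (29 * n) := by
    rw [← Real.sqrt_mul (by norm_num)]
    have := Real.nat_floor_real_sqrt_eq_nat_sqrt (a := 29 * n)
    rw [← this]
    push_cast
    rfl
  rw [e30, hls] at a1
  rw [e29, hls] at a2
  have b1 := (abs_le.1 a1).1
  have b2 := (abs_le.1 a2).2
  have h3 := pi_diff (Nat.sqrt (29 * n)) (Nat.sqrt (30 * n))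
  have h4 : (Nat.primeCounting (Nat.sqrt (30 * n)) : ℝ) ≤ Nat.primeCounting (Nat.sqrt (29 * n)) +
      #((Ioc (Nat.sqrt (29 * n)) (Nat.sqrt (30 * n))).filter Nat.Prime) := by exact_mod_cast h3
  set u : ℝ := √n / Real.log n with hu
  have hu0 : 0 < u := by positivity
  have e1 : √30 * √(n : ℝ) / (Real.log n / 2) = 2 * √30 * u := by
    rw [hu]
    field_simp
  have e2 : √29 * √(n : ℝ) / (Real.log n / 2) = 2 * √29 * u := by
    rw [hu]
    field_simp
  rw [e1] at b1
  rw [e2] at b2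
  have e3 : √(n : ℝ) / (10 * Real.log n) = u / 10 := by
    rw [hu]
    field_simp
  rw [e3]
  have c1 : 5.477 * u ≤ √30 * u := mul_le_mul_of_nonneg_right h30' hu0.le
  have c2 : √29 * u ≤ 5.386 * u := mul_le_mul_of_nonneg_right h29 hu0.le
  linarith

/-- **Four squares and prime tuples with shifts on average.** (1) For all `r ≥ 1` and `B` there are
`c > 0` and `n₀` such that for every `n ≥ n₀` with `4 ∤ n`, every set `A` of integers coprime to `30`
between `√(29 n)` and `√(30 n)` with `√n ≤ (log n) ^ B |A|` and every `H ≥ n ^ 9` with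
`(log H) ^ r ≤ |A|`: for at least `c H ^ r / (log log log n) ^ r` of the `r`-tuples of even numbers
`h_j ≤ H` there is a representation `n = x ^ 2 + y ^ 2 + z ^ 2 + w ^ 2` in natural numbers such that
`p = x + 2 y + 5 z` belongs to `A` and all the numbers `p + h_j` are prime. (2) In particular this holds
with `p` prime, if `n ^ 9 ≤ H` and `(log H) ^ r ≤ √n / (10 log n)`. -/
theorem result (r : ℕ) (hr : 1 ≤ r) :
    (∀ B : ℕ, ∃ c : ℝ, 0 < c ∧ ∃ n₀ : ℕ, ∀ n : ℕ, n₀ ≤ n → ¬ 4 ∣ n →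
      ∀ A : Finset ℕ, (∀ p ∈ A, Nat.Coprime p 30 ∧ 29 * n ≤ p ^ 2 ∧ p ^ 2 ≤ 30 * n) →
      √n ≤ Real.log n ^ B * #A → ∀ H : ℕ, n ^ 9 ≤ H → Real.log H ^ r ≤ #A →
      c * H ^ r / Real.log (Real.log (Real.log n)) ^ r ≤ ((good r n H A).ncard : ℝ)) ∧
    ∃ c : ℝ, 0 < c ∧ ∃ n₀ : ℕ, ∀ n : ℕ, n₀ ≤ n → ¬ 4 ∣ n →
      ∀ H : ℕ, n ^ 9 ≤ H → Real.log H ^ r ≤ √n / (10 * Real.log n) →
      c * H ^ r / Real.log (Real.log (Real.log n)) ^ r ≤
        ((good r n H {p | p.Prime}).ncard : ℝ) := by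
  classical
  refine ⟨fun B => general r B hr, ?_⟩
  obtain ⟨c, hc, n₁, h⟩ := general r 2 hr
  obtain ⟨n₂, hn₂⟩ := eventually_atTop.1 (primes_many.and
    (Pool.Agent.Helper29.BE.tLog.eventually_ge_atTop 10))
  refine ⟨c, hc, n₁ + n₂ + 7, fun n hn h4 H hH hHA => ?_⟩
  obtain ⟨g1, g2⟩ := hn₂ n (by omega)
  set A : Finset ℕ := (Ioc (Nat.sqrt (29 * n)) (Nat.sqrt (30 * n))).filter Nat.Prime with hA
  have h1 := h n (by omega) h4 A (by
    intro p hp
    rw [hA, mem_filter, mem_Ioc] at hp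
    obtain ⟨⟨h2, h3⟩, h5⟩ := hp
    have h6 : 29 * n < p ^ 2 := Nat.sqrt_lt'.1 h2
    have h7 : p ^ 2 ≤ 30 * n := Nat.le_sqrt'.1 h3
    refine ⟨?_, h6.le, h7⟩
    rw [h5.coprime_iff_not_dvd]
    intro h8
    have h9 : p ≤ 30 := Nat.le_of_dvd (by norm_num) h8
    have h10 : 7 ≤ p := by
      by_contra hcon
      push Not at hcon
      have : p ^ 2 ≤ 6 ^ 2 := Nat.pow_le_pow_left (by omega) 2
      omega
    interval_cases p <;> revert h5 <;> revert h8 <;> decide) (by
    have h2 : √(n : ℝ) = 10 * Real.log n * (√n / (10 * Real.log n)) := by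
      have : Real.log (n : ℝ) ≠ 0 := by linarith
      field_simp
    rw [h2]
    have h3 : 10 * Real.log (n : ℝ) ≤ Real.log n ^ 2 := by nlinarith
    exact mul_le_mul h3 g1 (by positivity) (by positivity)) H hH (hHA.trans g1)
  refine h1.trans ?_
  apply Nat.cast_le.2
  apply Set.ncard_le_ncard _ (good_finite r n H _)
  apply good_mono
  intro p hp
  rw [mem_coe, hA, mem_filter] at hp
  exact hp.2

end Pool.Agent.Results.MP_40574a_nt.ShiftedQuadruples
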